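import Mathlib

namespace Pool.Agent.Results.MP_ad1e8a_co.Counter
open Finset Matrix

/-- coloured permutations `(χ, ψ)` -/
abbrev S (m n : ℕ) := (Fin n → ZMod m) × Equiv.Perm (Fin n)

/-- `v` arises from `u` by a prefix reversal of length `k + 1` with colour shift `±1` -/
def Rev {m n : ℕ} (u v : S m n) : Prop :=
  ∃ k : Fin n, ∃ e ∈ ({1, -1} : Finset (ZMod m)), ∀ t : Fin n,
    (t ≤ k → v.2 t = u.2 ⟨k - t, by omega⟩ ∧ v.1 t = u.1 ⟨k - t, by omega⟩ + e) ∧
    (k < t → v.2 t = u.2 t ∧ v.1 t = u.1 t)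

instance {m n : ℕ} : DecidableRel (Rev (m := m) (n := n)) := fun _ _ => by
  unfold Rev; infer_instance

/-- the generalised pancake graph -/
def P (m n : ℕ) : SimpleGraph (S m n) := SimpleGraph.fromRel Rev

instance {m n : ℕ} : DecidableRel (P m n).Adj := fun u v =>
  decidable_of_iff (u ≠ v ∧ (Rev u v ∨ Rev v u)) (SimpleGraph.fromRel_adj _ _ _).symm

/-- the part `V_{i,j}` of a vertex: colour and position of the first letter -/
def part {m n : ℕ} [NeZero n] (u : S m n) : ZMod m × Fin n := (u.1 (u.2.symm 0), u.2.symm 0)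

/-- `λ₁ - λ₂` -/
noncomputable def gap {V : Type} [Fintype V] [DecidableEq V] {A : Matrix V V ℝ} (h : A.IsHermitian)
    (h2 : 1 < Fintype.card V) : ℝ :=
  h.eigenvalues₀ ⟨0, by omega⟩ - h.eigenvalues₀ ⟨1, h2⟩

abbrev T := ZMod 6 × Fin 2

def Q0 : Matrix T T ℤ := fun a b =>
  if a.2 = 1 ∧ b.2 = 1 then (if a.1 = b.1 then 2 else 0)
  else if a.1 = b.1 + 1 ∨ a.1 = b.1 - 1 then 1 else 0

def A (u : S 6 2) (e : ZMod 6) : S 6 2 := (![u.1 0 + e, u.1 1], u.2)
def B (u : S 6 2) (e : ZMod 6) : S 6 2 := (![u.1 1 + e, u.1 0 + e], u.2 * Equiv.swap 0 1)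

lemma all (p : S 6 2 → Prop) (h : ∀ a b : ZMod 6, p (![a, b], 1) ∧ p (![a, b], Equiv.swap 0 1)) (u) :
    p u := by
  obtain ⟨c, σ⟩ := u
  have e : c = ![c 0, c 1] := by ext i; fin_cases i <;> rfl
  have : σ = 1 ∨ σ = Equiv.swap 0 1 := by revert σ; decide
  rw [e]
  rcases this with rfl | rfl
  exacts [(h _ _).1, (h _ _).2]

lemma rv (u v : S 6 2) : Rev u v ↔ v = A u 1 ∨ v = A u (-1) ∨ v = B u 1 ∨ v = B u (-1) := by
  simp only [Rev, Fin.exists_fin_two, Fin.forall_fin_two, A, B, Prod.ext_iff, funext_iff,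
    Equiv.ext_iff, mem_insert, mem_singleton, exists_eq_or_imp, exists_eq_left]
  simp
  tauto

lemma nb (u : S 6 2) : (P 6 2).neighborFinset u = {A u 1, A u (-1), B u 1, B u (-1)} := by
  ext v
  simp only [SimpleGraph.mem_neighborFinset, P, SimpleGraph.fromRel_adj, rv, mem_insert,
    mem_singleton]
  have h1 : ∀ u : S 6 2, u ≠ A u 1 ∧ u ≠ A u (-1) ∧ u ≠ B u 1 ∧ u ≠ B u (-1) :=
    all _ (by decide +kernel)
  have h2 : ∀ u : S 6 2, u = A (A u 1) (-1) ∧ u = A (A u (-1)) 1 ∧ u = B (B u 1) (-1) ∧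
      u = B (B u (-1)) 1 := all _ (by decide +kernel)
  constructor
  · obtain ⟨a, b, c, d⟩ := h2 v
    rintro ⟨-, h | h | h | h | h⟩
    · exact h
    · exact Or.inr (Or.inl (h ▸ a))
    · exact Or.inl (h ▸ b)
    · exact Or.inr (Or.inr (Or.inr (h ▸ c)))
    · exact Or.inr (Or.inr (Or.inl (h ▸ d)))
  · intro h
    refine ⟨?_, Or.inl h⟩
    obtain ⟨a, b, c, d⟩ := h1 u
    rcases h with h | h | h | h <;> rw [h] <;> assumption

set_option synthInstance.maxSize 1000 in
lemma sm (u : S 6 2) (g : S 6 2 → ℤ) : ∑ v ∈ (P 6 2).neighborFinset u, g v =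
    g (A u 1) + g (A u (-1)) + g (B u 1) + g (B u (-1)) := by
  have h : ∀ u : S 6 2, A u 1 ≠ A u (-1) ∧ A u 1 ≠ B u 1 ∧ A u 1 ≠ B u (-1) ∧ A u (-1) ≠ B u 1 ∧
      A u (-1) ≠ B u (-1) ∧ B u 1 ≠ B u (-1) := all _ (by decide +kernel)
  obtain ⟨h1, h2, h3, h4, h5, h6⟩ := h u
  rw [nb, sum_insert (by simp [h1, h2, h3]), sum_insert (by simp [h4, h5]), sum_pair h6]
  ring

lemma q0 : ∀ (u : S 6 2) (b : T), (if part (A u 1) = b then 1 else 0) +
    (if part (A u (-1)) = b then 1 else 0) + (if part (B u 1) = b then 1 else 0) +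
    (if part (B u (-1)) = b then 1 else 0) = Q0 (part u) b :=
  all _ (by decide +kernel)

lemma q1 (u : S 6 2) (b : T) : ((univ.filter fun v => (P 6 2).Adj u v ∧ part v = b).card : ℤ) =
    Q0 (part u) b := by
  rw [← q0, ← sm u fun v => if part v = b then 1 else 0, SimpleGraph.neighborFinset_eq_filter,
    sum_boole, filter_filter]
lemma q2 : ∀ a b, Q0 a b = Q0 b a := by decide +kernel
lemma q3 : ∀ a b, ((Q0 * (Q0 * Q0 - 8)) * ((Q0 * Q0 - 3 * Q0 + 1) * (Q0 * Q0 - Q0 - 3)) :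
    Matrix T T ℤ) a b = 120 := by
  decide +kernel
lemma q4 : ∀ a, ∑ b, Q0 a b = 4 := by decide +kernel

def f (u : S 6 2) : ℤ := ![2, 1, -1, -2, -1, 1] (u.1 (u.2.symm 0) - u.1 (u.2.symm 1))
lemma g1 (u : S 6 2) : ∑ v ∈ (P 6 2).neighborFinset u, f v = 3 * f u := by
  rw [sm]
  revert u
  exact all _ (by decide +kernel)
lemma g2 (u : S 6 2) : (P 6 2).degree u = 4 := by
  have := sm u fun _ => 1
  simp only [sum_const, SimpleGraph.card_neighborFinset_eq_degree, nsmul_eq_mul] at this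
  omega

lemma ev {V : Type} [Fintype V] [DecidableEq V] {A : Matrix V V ℝ} (h : A.IsHermitian) (x : V → ℝ)
    (c : ℝ) (hx : x ≠ 0) (e : A *ᵥ x = c • x) : ∃ i, h.eigenvalues₀ i = c := by
  have : c ∈ spectrum ℝ A := by
    rw [← Matrix.spectrum_toLin']
    exact (Module.End.hasEigenvalue_of_hasEigenvector (x := x)
      ⟨by simpa [Module.End.mem_eigenspace_iff] using e, hx⟩).mem_spectrum
  rw [h.spectrum_real_eq_range_eigenvalues] at this
  obtain ⟨i, hi⟩ := this
  exact ⟨_, hi⟩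

theorem result : ∃ Q : Matrix (ZMod 6 × Fin 2) (ZMod 6 × Fin 2) ℝ,
    (∀ u b, Q (part u) b = (univ.filter fun v => (P 6 2).Adj u v ∧ part v = b).card) ∧
    ∃ (hA : ((P 6 2).adjMatrix ℝ).IsHermitian) (hQ : Q.IsHermitian) (h1 : _) (h2 : _),
      gap hA h1 < gap hQ h2 := by
  have hA : ((P 6 2).adjMatrix ℝ).IsHermitian := by
    simpa using (P 6 2).isSymm_adjMatrix (α := ℝ)
  set Q : Matrix T T ℝ := Q0.map (Int.castRingHom ℝ) with hQd
  have hQ : Q.IsHermitian := by
    ext a b; simp [hQd, q2 a b]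
  have h1 : 1 < Fintype.card (S 6 2) := by simp [Fintype.card_perm]
  have h2 : 1 < Fintype.card T := by simp
  refine ⟨Q, fun u b => by simp [hQd, ← q1], hA, hQ, h1, h2, ?_⟩
  have a1 : hA.eigenvalues₀ ⟨0, by omega⟩ ≤ 4 := by
    set j := (Fintype.equivOfCardEq (Fintype.card_fin _)) (⟨0, by omega⟩ : Fin (Fintype.card (S 6 2)))
    have e : hA.eigenvalues j = hA.eigenvalues₀ ⟨0, by omega⟩ := by
      simp [IsHermitian.eigenvalues, j]
    have := (P 6 2).posSemidef_lapMatrix ℝ |>.dotProduct_mulVec_nonneg (hA.eigenvectorBasis j)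
    have d : (P 6 2).degMatrix ℝ *ᵥ (hA.eigenvectorBasis j) = (4 : ℝ) • ⇑(hA.eigenvectorBasis j) := by
      ext u; simp [SimpleGraph.degMatrix_mulVec_apply, g2]
    rw [SimpleGraph.lapMatrix, sub_mulVec, hA.mulVec_eigenvectorBasis, d, ← sub_smul,
      dotProduct_smul, e] at this
    have n : star ⇑(hA.eigenvectorBasis j) ⬝ᵥ ⇑(hA.eigenvectorBasis j) = 1 := by
      have := hA.eigenvectorBasis.inner_eq_one j
      rwa [EuclideanSpace.inner_eq_star_dotProduct, dotProduct_comm] at this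
    rw [n] at this
    simpa using this
  have a2 : 3 ≤ hA.eigenvalues₀ ⟨1, h1⟩ := by
    obtain ⟨i, hi⟩ := ev hA (fun _ => 1) 4 (fun h => by simpa using congrFun h (0, 1)) (by
      ext u; simp [g2])
    obtain ⟨j, hj⟩ := ev hA (fun u => f u) 3 (fun h => by simpa [f] using congrFun h (0, 1)) (by
      ext u; simpa using congrArg (Int.cast : ℤ → ℝ) (g1 u))
    have : j ≠ ⟨0, by omega⟩ := by
      rintro rfl
      have := hA.eigenvalues₀_antitone (show (⟨0, by omega⟩ : Fin _) ≤ i from Nat.zero_le _)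
      linarith
    rw [← hj]
    exact hA.eigenvalues₀_antitone (Nat.one_le_iff_ne_zero.2 fun c => this (Fin.ext c))
  have b1 : 4 ≤ hQ.eigenvalues₀ ⟨0, by omega⟩ := by
    obtain ⟨i, hi⟩ := ev hQ (fun _ => 1) 4 (fun h => by simpa using congrFun h (0, 1)) (by
      ext u; simpa [hQd, mulVec, dotProduct] using congrArg (Int.cast : ℤ → ℝ) (q4 u))
    rw [← hi]
    exact hQ.eigenvalues₀_antitone (Nat.zero_le _)
  have b2 : hQ.eigenvalues₀ ⟨1, h2⟩ < 3 := by
    by_contra hc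
    have key : ∀ j, 3 ≤ hQ.eigenvalues j → ∃ c, ⇑(hQ.eigenvectorBasis j) = fun _ => c := by
      intro j hj
      have e := hQ.mulVec_eigenvectorBasis j
      generalize ⇑(hQ.eigenvectorBasis j) = x at e
      generalize hQ.eigenvalues j = l at e hj
      have m : (Q * (Q * Q - 8)) * ((Q * Q - 3 * Q + 1) * (Q * Q - Q - 3)) = of fun _ _ => 120 := by
        ext a b
        have := congrArg (Int.castRingHom ℝ) (q3 a b)
        rw [← Matrix.map_apply (f := Int.castRingHom ℝ), ← RingHom.mapMatrix_apply] at this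
        simp only [map_mul, map_sub, map_add, map_ofNat, map_one, RingHom.mapMatrix_apply] at this
        exact this
      have s : ∀ c : ℕ, ((c : Matrix T T ℝ)) *ᵥ x = (c : ℝ) • x := by
        intro c; rw [← nsmul_one, smul_mulVec, one_mulVec, Nat.cast_smul_eq_nsmul]
      have s8 : (8 : Matrix T T ℝ) *ᵥ x = (8 : ℝ) • x := s 8
      have s3 : (3 : Matrix T T ℝ) *ᵥ x = (3 : ℝ) • x := s 3
      have : _ *ᵥ x = _ *ᵥ x := congrArg (· *ᵥ x) m
      simp only [← mulVec_mulVec, sub_mulVec, add_mulVec, e, mulVec_smul, mulVec_sub, mulVec_add,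
        s8, s3, one_mulVec] at this
      have p : 0 < l * (l * l - 8) * ((l * l - 3 * l + 1) * (l * l - l - 3)) := by
        have : 0 < l * l - 8 := by nlinarith
        have : 0 < l * l - 3 * l + 1 := by nlinarith
        have : 0 < l * l - l - 3 := by nlinarith
        positivity
      refine ⟨(∑ b, 120 * x b) / (l * (l * l - 8) * ((l * l - 3 * l + 1) * (l * l - l - 3))), ?_⟩
      ext a
      have := congrFun this a
      simp only [Pi.sub_apply, Pi.add_apply, Pi.smul_apply, smul_eq_mul, mulVec, dotProduct,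
        of_apply] at this
      rw [eq_div_iff p.ne', ← this]
      ring
    let E : Fin (Fintype.card T) ≃ T := Fintype.equivOfCardEq (Fintype.card_fin _)
    obtain ⟨c, hc0⟩ := key (E ⟨0, by omega⟩) (by
      simpa [IsHermitian.eigenvalues, E] using le_trans (by norm_num) b1)
    obtain ⟨d, hd⟩ := key (E ⟨1, h2⟩) (by simpa [IsHermitian.eigenvalues, E] using hc)
    have o := hQ.eigenvectorBasis.inner_eq_zero (i := E ⟨0, by omega⟩) (j := E ⟨1, h2⟩) (by simp)
    have o1 := hQ.eigenvectorBasis.inner_eq_one (E ⟨0, by omega⟩)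
    have o2 := hQ.eigenvectorBasis.inner_eq_one (E ⟨1, h2⟩)
    rw [EuclideanSpace.inner_eq_star_dotProduct] at o o1 o2
    simp only [hc0, hd, dotProduct, Pi.star_apply, star_trivial, sum_const] at o o1 o2
    simp at o o1 o2
    rcases o with rfl | rfl <;> simp at o1 o2
  unfold gap
  linarith

end Pool.Agent.Results.MP_ad1e8a_co.Counter
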